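import Pool.Agent.Helper61.NW.Goals

/-!
# S4: a normal infinite cyclic subgroup in a polycyclic group
-/

set_option autoImplicit false

namespace Pool.Agent.Helper91.SOL

open Pool.Agent.Helper61.NW

universe u

/-- A torsion solvable group all of whose subgroups are finitely generated is finite. -/
theorem finite_of_torsion {Q : Type u} [Group Q] (hs : Group.IsSolvable Q)
    (hN : ∀ H : Subgroup Q, H.FG) (ht : ∀ x : Q, IsOfFinOrder x) : Finite Q := by
  obtain ⟨n, hn⟩ := (Group.isSolvable_def Q).1 hs
  have key : ∀ k : ℕ, Finite (derivedSeries Q (k + 1)) → Finite (derivedSeries Q k) := by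
    intro k hk
    set H := derivedSeries Q k with hH
    have hfgH : Group.FG H := (Group.fg_iff_subgroup_fg H).2 (hN H)
    have hcom : (commutator H).map H.subtype = derivedSeries Q (k + 1) := by
      rw [Subgroup.map_subtype_commutator, derivedSeries_succ]
    have hfc : Finite (commutator H) := by
      rw [← hcom] at hk
      exact Finite.of_equiv _
        (Subgroup.equivMapOfInjective (commutator H) H.subtype H.subtype_injective).symm.toEquiv
    have htA : IsMulTorsion (Abelianization H) := by
      intro x
      obtain ⟨y, rfl⟩ := QuotientGroup.mk_surjective x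
      obtain ⟨m, hm, hym⟩ := isOfFinOrder_iff_pow_eq_one.1 (ht (y : Q))
      refine isOfFinOrder_iff_pow_eq_one.2 ⟨m, hm, ?_⟩
      have h1 : y ^ m = 1 := Subtype.ext (by simpa using hym)
      change ((y ^ m : H) : H ⧸ commutator H) = 1
      rw [h1]
      rfl
    have hfgA : Group.FG (Abelianization H) :=
      inferInstanceAs (Group.FG (H ⧸ commutator H))
    have hfA : Finite (Abelianization H) := CommGroup.finite_of_fg_isMulTorsion _ htA
    have hfA' : Finite (H ⧸ commutator H) := hfA
    exact Finite.of_equiv _ (Subgroup.groupEquivQuotientProdSubgroup (s := commutator H)).symm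
  have hall : ∀ j : ℕ, j ≤ n → Finite (derivedSeries Q (n - j)) := by
    intro j
    induction j with
    | zero =>
      intro _
      rw [Nat.sub_zero, hn]
      infer_instance
    | succ j ih =>
      intro hj
      refine key (n - (j + 1)) ?_
      have h1 : n - (j + 1) + 1 = n - j := by omega
      rw [h1]
      exact ih (by omega)
  have h0 := hall n le_rfl
  rw [Nat.sub_self, derivedSeries_zero] at h0
  exact Finite.of_equiv _ (Subgroup.topEquiv (G := Q)).toEquiv

theorem finiteIndex_map {Γ : Type u} [Group Γ] (N : Subgroup Γ) [N.FiniteIndex] (K : Subgroup N)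
    (hK : K.FiniteIndex) : (K.map N.subtype).FiniteIndex := by
  rw [Subgroup.finiteIndex_iff, Subgroup.index_map_subtype]
  exact Nat.mul_ne_zero hK.index_ne_zero (Subgroup.FiniteIndex.index_ne_zero (H := N))

theorem s4 {Γ : Type u} [Group Γ] (hs : Group.IsSolvable Γ) (hN : ∀ H : Subgroup Γ, H.FG)
    (z : Γ) (hz : ∀ n : ℤ, z ^ n = 1 → n = 0) (hzn : (Subgroup.zpowers z).Normal) :
    (∃ c : Γ, (Subgroup.zpowers c).FiniteIndex) ∨
    (∃ A : Subgroup Γ, A.FiniteIndex ∧ Nonempty (A ≃* Multiplicative (ℤ × ℤ))) ∨
    ∃ D : Subgroup Γ, Big D := by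
  -- conjugates of `z`
  have hconj : ∀ g : Γ, g * z * g⁻¹ = z ∨ g * z * g⁻¹ = z⁻¹ := by
    intro g
    obtain ⟨k, hk⟩ := Subgroup.mem_zpowers_iff.1
      (hzn.conj_mem z (Subgroup.mem_zpowers z) g)
    obtain ⟨l, hl⟩ := Subgroup.mem_zpowers_iff.1
      (hzn.conj_mem z (Subgroup.mem_zpowers z) g⁻¹)
    rw [inv_inv] at hl
    have h1 : z = (z ^ l) ^ k := by
      rw [hl]
      have h2 : (g⁻¹ * z * g) ^ k = g⁻¹ * z ^ k * g := by
        have := conj_zpow (i := k) (a := g⁻¹) (b := z)
        rwa [inv_inv] at this
      rw [h2, hk]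
      group
    have h3 : z ^ (l * k - 1) = 1 := by
      rw [zpow_sub, zpow_mul, ← h1, zpow_one, mul_inv_cancel]
    have h4 : l * k = 1 := by have := hz _ h3; omega
    have h5 : k = 1 ∨ k = -1 := Int.eq_one_or_neg_one_of_mul_eq_one' h4 |>.imp And.right And.right
    rcases h5 with h5 | h5
    · left; rw [← hk, h5, zpow_one]
    · right; rw [← hk, h5, zpow_neg_one]
  set C : Subgroup Γ := Subgroup.centralizer {z} with hC
  have hmemC : ∀ g : Γ, g ∈ C ↔ g * z = z * g := by
    intro g
    rw [hC, Subgroup.mem_centralizer_singleton_iff]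
  have hCf : C.FiniteIndex := by
    have hfin : Finite ({z, z⁻¹} : Set Γ) := Set.Finite.to_subtype (by simp)
    have hinj : Function.Injective (fun q : Γ ⧸ C ↦
        (⟨q.out * z * q.out⁻¹, by
          rcases hconj q.out with h | h
          · rw [h]; simp
          · rw [h]; simp⟩ : ({z, z⁻¹} : Set Γ))) := by
      intro q1 q2 h
      have h1 : q1.out * z * q1.out⁻¹ = q2.out * z * q2.out⁻¹ := congrArg Subtype.val h
      have h2 : q1.out⁻¹ * q2.out ∈ C := by
        rw [hmemC]
        have h3 : q1.out⁻¹ * (q1.out * z * q1.out⁻¹) * q2.out =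
            q1.out⁻¹ * (q2.out * z * q2.out⁻¹) * q2.out := by rw [h1]
        have h4 : q1.out⁻¹ * (q1.out * z * q1.out⁻¹) * q2.out = z * (q1.out⁻¹ * q2.out) := by group
        have h5 : q1.out⁻¹ * (q2.out * z * q2.out⁻¹) * q2.out = q1.out⁻¹ * q2.out * z := by group
        rw [h4, h5] at h3
        exact h3.symm
      have h6 := QuotientGroup.eq.2 h2
      rwa [QuotientGroup.out_eq', QuotientGroup.out_eq'] at h6
    have : Finite (Γ ⧸ C) := Finite.of_injective _ hinj
    exact Subgroup.finiteIndex_of_finite_quotient
  have hzC : z ∈ C := (hmemC z).2 rfl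
  set z' : C := ⟨z, hzC⟩ with hz'
  have hz'c : ∀ g : C, g * z' = z' * g := fun g ↦ Subtype.ext ((hmemC g).1 g.2)
  have hz'i : ∀ n : ℤ, z' ^ n = 1 → n = 0 := by
    intro n hn
    refine hz n ?_
    have := congrArg Subtype.val hn
    simpa using this
  have hz'cen : z' ∈ Subgroup.center C := Subgroup.mem_center_iff.2 hz'c
  have hZn : (Subgroup.zpowers z').Normal := by
    refine ⟨fun n hn g ↦ ?_⟩
    have h1 : g * n = n * g :=
      (Subgroup.mem_center_iff.1 ((Subgroup.zpowers_le.2 hz'cen) hn)) g
    rw [h1, mul_inv_cancel_right]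
    exact hn
  by_cases hQ : Finite (C ⧸ Subgroup.zpowers z')
  · left
    refine ⟨z, ?_⟩
    have h1 : (Subgroup.zpowers z').FiniteIndex := Subgroup.finiteIndex_of_finite_quotient
    have h2 := finiteIndex_map C _ h1
    rw [MonoidHom.map_zpowers] at h2
    exact h2
  · right
    -- an element of infinite order in the quotient
    have hsC : Group.IsSolvable C := inferInstance
    have hsQ : Group.IsSolvable (C ⧸ Subgroup.zpowers z') := inferInstance
    have hNQ : ∀ H : Subgroup (C ⧸ Subgroup.zpowers z'), H.FG := by
      intro H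
      rw [← Group.fg_iff_subgroup_fg]
      set K := H.comap (QuotientGroup.mk' (Subgroup.zpowers z')) with hK
      have hKm : K.map (QuotientGroup.mk' (Subgroup.zpowers z')) = H :=
        Subgroup.map_comap_eq_self_of_surjective (QuotientGroup.mk'_surjective _) H
      have h1 : Group.FG (K.map C.subtype) := (Group.fg_iff_subgroup_fg _).2 (hN _)
      have h2 : Group.FG K := Group.fg_of_surjective
        (f := (Subgroup.equivMapOfInjective K C.subtype C.subtype_injective).symm.toMonoidHom)
        (Subgroup.equivMapOfInjective K C.subtype C.subtype_injective).symm.surjective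
      rw [← hKm]
      exact Group.fg_of_surjective
        (f := (QuotientGroup.mk' (Subgroup.zpowers z')).subgroupMap K)
        (MonoidHom.subgroupMap_surjective _ K)
    have hex : ∃ x : C ⧸ Subgroup.zpowers z', ¬ IsOfFinOrder x := by
      by_contra hno
      push Not at hno
      exact hQ (finite_of_torsion hsQ hNQ hno)
    obtain ⟨x, hx⟩ := hex
    obtain ⟨w, rfl⟩ := QuotientGroup.mk_surjective x
    have hwi : ∀ i : ℤ, ((w : C ⧸ Subgroup.zpowers z')) ^ i = 1 → i = 0 := by
      intro i hi
      by_contra h0
      exact hx (isOfFinOrder_iff_zpow_eq_one.2 ⟨i, h0, hi⟩)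
    have hind : ∀ i j : ℤ, w ^ i * z' ^ j = 1 → i = 0 ∧ j = 0 := by
      intro i j hij
      have h1 : ((w : C ⧸ Subgroup.zpowers z')) ^ i = 1 := by
        rw [← QuotientGroup.mk_zpow, QuotientGroup.eq_one_iff]
        have h2 : w ^ i = z' ^ (-j) := by
          rw [zpow_neg]
          exact eq_inv_of_mul_eq_one_left hij
        rw [h2]
        exact Subgroup.zpow_mem_zpowers z' (-j)
      have hi := hwi i h1
      refine ⟨hi, ?_⟩
      rw [hi, zpow_zero, one_mul] at hij
      exact hz'i j hij
    by_cases hfi : (Subgroup.closure {z', w}).FiniteIndex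
    · left
      have hcz : ∀ (i : ℤ) (g : C), g * z' ^ i = z' ^ i * g := fun i g ↦
        (Subgroup.mem_center_iff.1 (Subgroup.zpow_mem _ hz'cen i)) g
      let φ : Multiplicative (ℤ × ℤ) →* C :=
        { toFun := fun p ↦ w ^ (Multiplicative.toAdd p).1 * z' ^ (Multiplicative.toAdd p).2
          map_one' := by simp
          map_mul' := by
            intro p q
            rw [toAdd_mul, Prod.fst_add, Prod.snd_add, zpow_add, zpow_add]
            calc w ^ (Multiplicative.toAdd p).1 * w ^ (Multiplicative.toAdd q).1 *
                (z' ^ (Multiplicative.toAdd p).2 * z' ^ (Multiplicative.toAdd q).2)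
                = w ^ (Multiplicative.toAdd p).1 * (w ^ (Multiplicative.toAdd q).1 *
                  z' ^ (Multiplicative.toAdd p).2) * z' ^ (Multiplicative.toAdd q).2 := by
                  simp only [mul_assoc]
              _ = _ := by
                rw [hcz (Multiplicative.toAdd p).2 (w ^ (Multiplicative.toAdd q).1)]
                simp only [mul_assoc] }
      have hφ : ∀ p, φ p = w ^ (Multiplicative.toAdd p).1 * z' ^ (Multiplicative.toAdd p).2 :=
        fun _ ↦ rfl
      have hφi : Function.Injective φ := by
        rw [injective_iff_map_eq_one]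
        intro p hp
        rw [hφ] at hp
        obtain ⟨h1, h2⟩ := hind _ _ hp
        apply Multiplicative.toAdd.injective
        exact Prod.ext h1 h2
      have hle : Subgroup.closure {z', w} ≤ φ.range := by
        rw [Subgroup.closure_le]
        intro y hy
        rcases hy with hy | hy
        · refine ⟨Multiplicative.ofAdd (0, 1), ?_⟩
          rw [hφ, hy]
          simp
        · refine ⟨Multiplicative.ofAdd (1, 0), ?_⟩
          rw [hφ, Set.mem_singleton_iff.1 hy]
          simp
      have hrf : φ.range.FiniteIndex := Subgroup.finiteIndex_of_le hle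
      have h1 := finiteIndex_map C _ hrf
      rw [MonoidHom.map_range] at h1
      exact ⟨(C.subtype.comp φ).range, h1,
        ⟨(MonoidHom.ofInjective (f := C.subtype.comp φ)
          (C.subtype_injective.comp hφi)).symm⟩⟩
    · right
      exact ⟨C, z', w, hz'c, hind, hfi⟩

end Pool.Agent.Helper91.SOL
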