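import Mathlib

/-!
# S5: two commuting independent elements generate `ℤ²`
-/

set_option autoImplicit false

namespace Pool.Agent.Helper91.SOL

universe u

theorem s5 {Γ : Type u} [Group Γ] (a b : Γ) (hab : a * b = b * a)
    (hind : ∀ i j : ℤ, a ^ i * b ^ j = 1 → i = 0 ∧ j = 0) :
    Nonempty (Subgroup.closure {a, b} ≃* Multiplicative (ℤ × ℤ)) := by
  have hc : ∀ i j : ℤ, b ^ i * a ^ j = a ^ j * b ^ i := fun i j ↦
    ((Commute.zpow_zpow (show Commute b a from hab.symm) i j)).eq
  let φ : Multiplicative (ℤ × ℤ) →* Γ :=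
    { toFun := fun p ↦ a ^ (Multiplicative.toAdd p).1 * b ^ (Multiplicative.toAdd p).2
      map_one' := by simp
      map_mul' := by
        intro p q
        rw [toAdd_mul, Prod.fst_add, Prod.snd_add, zpow_add, zpow_add]
        calc a ^ (Multiplicative.toAdd p).1 * a ^ (Multiplicative.toAdd q).1 *
            (b ^ (Multiplicative.toAdd p).2 * b ^ (Multiplicative.toAdd q).2)
            = a ^ (Multiplicative.toAdd p).1 * (a ^ (Multiplicative.toAdd q).1 *
              b ^ (Multiplicative.toAdd p).2) * b ^ (Multiplicative.toAdd q).2 := by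
              simp only [mul_assoc]
          _ = _ := by
            rw [← hc (Multiplicative.toAdd p).2 (Multiplicative.toAdd q).1]
            simp only [mul_assoc] }
  have hφ : ∀ p, φ p = a ^ (Multiplicative.toAdd p).1 * b ^ (Multiplicative.toAdd p).2 :=
    fun _ ↦ rfl
  have hφi : Function.Injective φ := by
    rw [injective_iff_map_eq_one]
    intro p hp
    rw [hφ] at hp
    obtain ⟨h1, h2⟩ := hind _ _ hp
    apply Multiplicative.toAdd.injective
    exact Prod.ext h1 h2
  have hle : Subgroup.closure {a, b} ≤ φ.range := by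
    rw [Subgroup.closure_le]
    intro y hy
    rcases hy with hy | hy
    · refine ⟨Multiplicative.ofAdd (1, 0), ?_⟩
      rw [hφ, hy]
      simp
    · refine ⟨Multiplicative.ofAdd (0, 1), ?_⟩
      rw [hφ, Set.mem_singleton_iff.1 hy]
      simp
  have hge : φ.range ≤ Subgroup.closure {a, b} := by
    rintro _ ⟨p, rfl⟩
    rw [hφ]
    have ha : a ∈ Subgroup.closure {a, b} := Subgroup.subset_closure (Set.mem_insert _ _)
    have hb : b ∈ Subgroup.closure {a, b} :=
      Subgroup.subset_closure (Set.mem_insert_of_mem _ (Set.mem_singleton _))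
    exact Subgroup.mul_mem _ (Subgroup.zpow_mem _ ha _) (Subgroup.zpow_mem _ hb _)
  rw [le_antisymm hle hge]
  exact ⟨(MonoidHom.ofInjective hφi).symm⟩

end Pool.Agent.Helper91.SOL
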